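import Pool.Agent.helper22.LP.MatBits

/-!
# Upper broadcast numbers (MP_7a9dcc_lc): the matrix with a unary number in front is computable in
polynomial time
-/

set_option autoImplicit false

namespace Pool.Agent.helper18.BC

open Pool.Agent.helper64.LP Pool.Agent.helper64.LP.MB
open Function (update)

/-- for each cell of `J` print `q` times `true` -/
def emK (q : ℕ) : C :=
  .seq (each .J (.seq (.push .J0 fun v => (v .J).getD default)
    (pushL .out (List.replicate q fun _ => true))))
    (each .J0 (.push .J fun v => (v .J0).getD default))

theorem emK_runs (q : ℕ) {v : Reg GG} {S : Stk GG} (h1 : v .J = none)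
    (h2 : v .J0 = none) (s2 : S .J0 = []) :
    Runs (emK q) v S v (update S .out (List.replicate (q * (S .J).length) true ++ S .out))
      ((S .J).length * (2 * q + 10) + 7) := by
  have r1 : Runs (each .J (.seq (.push .J0 fun v => (v .J).getD default)
      (pushL .out (List.replicate q fun _ => true)))) v S v
      (update (update (update S .J []) .J0 (S .J).reverse) .out
        (List.replicate (q * (S .J).length) true ++ S .out))
      ((S .J).length * ((1 + (2 * q + 1) + 1) + 3) + 3) := by
    refine each_runs' (k := KK.J) h1 (S .J)
      (fun p r => update (update (update S .J r) .J0 p.reverse) .out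
        (List.replicate (q * p.length) true ++ S .out)) ?_ ?_ ?_ ?_
    · intro p r _
      simp [Function.update]
    · funext k
      cases k <;> simp [Function.update, s2]
    · rfl
    · intro p y r hpr
      refine ((Runs.push _ _ _ _).seq (pushL_runs _ _ _ _)).conv rfl ?_ ?_
      · funext k
        cases k <;> simp [Function.update]
        rw [← List.append_assoc, List.replicate_append_replicate]
        congr 2
        ring
      · simp
  have r2 := move_runs (k := KK.J0) (k' := KK.J) (by decide) (fun o => o.getD default) (v := v)
    (S := (update (update (update S .J []) .J0 (S .J).reverse) .out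
        (List.replicate (q * (S .J).length) true ++ S .out))) h2
  refine (r1.seq r2).conv rfl ?_ ?_
  · funext k
    cases k <;> simp [Function.update, s2]
  · simp [Function.update]
    nlinarith

/-- for each cell of `P` and each cell of `J` print `q` times `true`; `P` is emptied -/
def emKK (q : ℕ) : C := each .P (emK q)

theorem emKK_runs (q : ℕ) {v : Reg GG} {S : Stk GG} (h1 : v .J = none)
    (h2 : v .J0 = none) (h3 : v .P = none) (s2 : S .J0 = []) :
    Runs (emKK q) v S v (update (update S .P []) .out
      (List.replicate (q * (S .J).length * (S .P).length) true ++ S .out))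
      ((S .P).length * (((S .J).length * (2 * q + 10) + 7) + 3) + 3) := by
  refine each_runs' (k := KK.P) h3 (S .P)
    (fun p r => update (update S .P r) .out
      (List.replicate (q * (S .J).length * p.length) true ++ S .out)) ?_ ?_ ?_ ?_
  · intro p r _
    simp [Function.update]
  · funext k
    cases k <;> simp [Function.update]
  · rfl
  · intro p y r hpr
    refine (emK_runs q ?_ ?_ ?_).conv rfl ?_ ?_
    · simp [Function.update, h1]
    · simp [Function.update, h2]
    · simp [Function.update, s2]
    · funext k
      cases k <;> simp [Function.update]
      rw [← List.append_assoc, List.replicate_append_replicate]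
      congr 2
      ring
    · simp [Function.update]

variable {p : ℕ} (β : Fin p → Fin p → BPat → Bool)

/-- the main program -/
def mainK (q : ℕ) : C := .seq (each .T (bodyT β)) (.seq (.push .out fun _ => false)
  (.seq (emKK q) (.seq (each .J (.load id)) (each .Q (.load id)))))

theorem mainK_runs (q : ℕ) (w : List Bool) (N B : ℕ) :
    Runs (mainK β q) v0 (bldS w N B) v0 (update (fun _ => []) .out
      (List.replicate (q * N * N) true ++ false ::
        (List.range N).flatMap fun t => (List.range N).flatMap (GJ β w N B t)))
      (N * (bodyTT p N + 3) + N * ((N * (2 * q + 10) + 7) + 3) + N * 8 + 20) := by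
  set D := (List.range N).flatMap fun t => (List.range N).flatMap (GJ β w N B t) with hD
  have r1 : Runs (each .T (bodyT β)) v0 (bldS w N B) v0 (update (update (update (update
      (fun _ => []) .J (Jl w N B N)) .P (Pl N 0 N)) .Q (Ql w N B N N)) .out D)
      (N * (bodyTT p N + 3) + 3) := by
    refine (each_runs' (k := KK.T) rfl (Tl N N) (fun x q => update (update (update (update (update
      (fun _ => []) .T q) .J (Jl w N B N)) .P (Pl N q.length N)) .Q (Ql w N B N N)) .out
      (((List.range N).drop q.length).flatMap fun t => (List.range N).flatMap (GJ β w N B t)))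
      (t := bodyTT p N) ?_ ?_ rfl ?_).conv rfl ?_ ?_
    · intro x q _
      simp [Function.update]
    · have e1 : (Tl N N).length = N := by simp [Tl]
      rw [e1]
      have e2 : (List.range N).drop N = [] := by simp
      rw [e2]
      funext k
      cases k <;> simp [Function.update, bldS]
    · intro x y q hxq
      obtain ⟨e1, e2, e3⟩ := suffix' _ hxq
      refine (bodyT_runs β (w := w) (N := N) (B := B) e2 ?_ ?_ ?_ ?_ ?_ ?_ ?_ ?_ ?_ ?_ ?_ ?_ ?_ ?_).conv
        rfl ?_ le_rfl
      · simp [e1]
      · simp [Function.update, v0]
      · simp [Function.update, v0]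
      · simp [Function.update, v0]
      · simp [Function.update, v0]
      · simp [Function.update, v0]
      · simp [Function.update, v0]
      · simp [Function.update, v0]
      · simp [Function.update]
      · simp [Function.update]
      · simp [Function.update]
      · simp [Function.update]
      · simp [Function.update]
      · simp [Function.update]
      · funext k
        cases k <;> simp only [Function.update, reduceCtorEq, dite_true, dite_false]
        rw [drop_range e2, List.flatMap_cons]
        rfl
    · funext k
      cases k <;> simp [Function.update, hD]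
    · simp [Tl]
  have r2 := Runs.push KK.out (fun _ => false) v0 (update (update (update (update
      (fun _ => []) .J (Jl w N B N)) .P (Pl N 0 N)) .Q (Ql w N B N N)) .out D)
  have r3 := emKK_runs q (v := v0) (S := (update (update (update (update
      (fun _ => []) .J (Jl w N B N)) .P (Pl N 0 N)) .Q (Ql w N B N N)) .out (false :: D)))
      rfl rfl rfl (by simp [Function.update])
  have r4 := clear_runs (k := KK.J) (v := v0) (S := (update (update (update
      (fun _ => []) .J (Jl w N B N)) .Q (Ql w N B N N)) .out
      (List.replicate (q * N * N) true ++ false :: D))) rfl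
  have r5 := clear_runs (k := KK.Q) (v := v0) (S := (update (update
      (fun _ => []) .Q (Ql w N B N N)) .out
      (List.replicate (q * N * N) true ++ false :: D))) rfl
  have lJ : (Jl w N B N).length = N := by simp [Jl]
  have lP : (Pl N 0 N).length = N := by simp [Pl]
  have lQ : (Ql w N B N N).length = N := by simp [Ql]
  refine (r1.seq ((r2.conv rfl ?_ le_rfl).seq ((r3.conv rfl ?_ le_rfl).seq
    ((r4.conv rfl ?_ le_rfl).seq r5)))).conv rfl ?_ ?_
  · funext k
    cases k <;> simp [Function.update]
  · funext k
    cases k <;> simp [Function.update, lJ, lP]
  · funext k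
    cases k <;> simp [Function.update]
  · funext k
    cases k <;> simp [Function.update]
  · simp [Function.update, lJ, lP, lQ]
    omega

theorem timeK_PB {N : ℕ → ℕ} (hN : MB.PB N) (p q : ℕ) : MB.PB fun m =>
    N m * (bodyTT p (N m) + 3) + N m * ((N m * (2 * q + 10) + 7) + 3) + N m * 8 + 20 :=
  (((hN.mul ((bodyTT_PB hN p).add (PB.const 3))).add (hN.mul (((hN.mul (PB.const (2 * q + 10))).add
    (PB.const 7)).add (PB.const 3)))).add (hN.mul (PB.const 8))).add (PB.const 20)

theorem unaryMat_polyTime (p q a b c d : ℕ) (β : Fin p → Fin p → BPat → Bool) :
    PolyTime fun w => List.replicate (q * (a * (w.length + 1) ^ b) * (a * (w.length + 1) ^ b)) true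
      ++ false :: matBits p (a * (w.length + 1) ^ b)
      (w.length + 1 + c * (w.length + 1) ^ d) w β := by
  have hN : MB.PB fun m => a * m ^ b := (PB.const a).mul (PB.id.pow b)
  have hB : MB.PB fun m => m + c * m ^ d := PB.id.add ((PB.const c).mul (PB.id.pow d))
  obtain ⟨A, D, hAD⟩ := (((arithT_PB a b c d).add ((((hN.mul (PB.const 18)).add
    ((PB.const 4).mul PB.id)).add ((PB.const 4).mul hB)).add (PB.const 16))).add
    (timeK_PB hN p q)).add (PB.const 2)
  refine compile GG (Reg GG) KK.inp KK.out (Equiv.refl Bool) (Equiv.refl Bool) v0
    (.seq (arith a b c d) (.seq bld (mainK β q))) _ A D fun w => ?_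
  have r1 := arith_runs a b c d (S := oneStack KK.inp w) (by
    intro k hk
    simp [oneStack, Function.update, hk])
  have e0 : oneStack (Γ := GG) KK.inp w KK.inp = w := by simp [oneStack]
  rw [e0] at r1
  have r2 := bld_runs w (a * (w.length + 1) ^ b) (w.length + 1 + c * (w.length + 1) ^ d)
  have r3 := mainK_runs β q w (a * (w.length + 1) ^ b) (w.length + 1 + c * (w.length + 1) ^ d)
  have r := (r1.conv rfl (S'' := Function.update (Function.update (Function.update (fun _ => [])
    .n (un (a * (w.length + 1) ^ b))) .inp w) .b (un (w.length + 1 + c * (w.length + 1) ^ d)))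
    (by funext k; cases k <;> simp [Function.update, oneStack]) le_rfl).seq (r2.seq r3)
  obtain ⟨n, hn, hE⟩ := r
  refine ⟨n, ?_, ?_⟩
  · refine hn.trans (le_trans ?_ (hAD (w.length + 1) (by omega)))
    simp only []
    omega
  · simp only [Equiv.refl_symm, Equiv.coe_refl, List.map_id]
    rw [matBits_eq]
    exact hE

end Pool.Agent.helper18.BC
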