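import Pool.Agent.helper18.BC.Graph
import Pool.Agent.helper19.LP.G

/-!
# Upper broadcast numbers (MP_7a9dcc_lc): the graph of a uniform CNF and its adjacency matrix
-/

set_option autoImplicit false
set_option linter.unusedSectionVars false

namespace Pool.Agent.helper18.BC

open Pool.Agent.helper64.LP Pool.Agent.helper64.LP.ModG

/-! ### Equality of resolved coordinates is local -/

/-- the value of a resolved coordinate -/
def rv (o : Off) (n N : ℕ) : ℕ :=
  match o with
  | .same => n
  | .next => if n + 1 < N then n + 1 else n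
  | .zero => 0

theorem resolve_val {N : ℕ} (o : Off) (x : Fin N) : (resolve o x).val = rv o x.val N := by
  cases o
  · rfl
  · unfold resolve rv
    split_ifs <;> rfl
  · rfl

theorem rv_local {o o' : Off} {t u N t' u' N' : ℕ} (ht : t < N) (hu : u < N) (ht' : t' < N')
    (hu' : u' < N') (h1 : t = u ↔ t' = u') (h2 : u = t + 1 ↔ u' = t' + 1)
    (h3 : t = u + 1 ↔ t' = u' + 1) (h4 : t = 0 ↔ t' = 0) (h5 : t + 1 = N ↔ t' + 1 = N')
    (h6 : u = 0 ↔ u' = 0) (h7 : u + 1 = N ↔ u' + 1 = N') (h : rv o t N = rv o' u N) :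
    rv o t' N' = rv o' u' N' := by
  cases o <;> cases o' <;> simp only [rv] at h ⊢ <;> (try split_ifs at h) <;>
    (try split_ifs) <;> omega

variable {w w' : List Bool} {N N' B B' : ℕ}

theorem resolve_local_t2 {o o' : Off} {x y : Fin N × Fin N} {x' y' : Fin N' × Fin N'}
    (hP : bpat w N B x y = bpat w' N' B' x' y') (h : resolve o x.1 = resolve o' y.1) :
    resolve o x'.1 = resolve o' y'.1 := by
  have h1 := congrArg BPat.tt hP
  have h2 := congrArg BPat.tn hP
  have h3 := congrArg BPat.tp hP
  have h4 := congrArg (fun P => P.p.t0) hP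
  have h5 := congrArg (fun P => P.p.tl) hP
  have h6 := congrArg (fun P => P.p'.t0) hP
  have h7 := congrArg (fun P => P.p'.tl) hP
  simp only [bpat, upat, decide_eq_decide] at h1 h2 h3 h4 h5 h6 h7
  have h8 := congrArg Fin.val h
  apply Fin.ext
  rw [resolve_val, resolve_val] at h8 ⊢
  exact rv_local x.1.isLt y.1.isLt x'.1.isLt y'.1.isLt h1 h2 h3 h4 h5 h6 h7 h8

theorem resolve_local_j2 {o o' : Off} {x y : Fin N × Fin N} {x' y' : Fin N' × Fin N'}
    (hP : bpat w N B x y = bpat w' N' B' x' y') (h : resolve o x.2 = resolve o' y.2) :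
    resolve o x'.2 = resolve o' y'.2 := by
  have h1 := congrArg BPat.jj hP
  have h2 := congrArg BPat.jn hP
  have h3 := congrArg BPat.jp hP
  have h4 := congrArg (fun P => P.p.j0) hP
  have h5 := congrArg (fun P => P.p.jl) hP
  have h6 := congrArg (fun P => P.p'.j0) hP
  have h7 := congrArg (fun P => P.p'.jl) hP
  simp only [bpat, upat, decide_eq_decide] at h1 h2 h3 h4 h5 h6 h7
  have h8 := congrArg Fin.val h
  apply Fin.ext
  rw [resolve_val, resolve_val] at h8 ⊢
  exact rv_local x.2.isLt y.2.isLt x'.2.isLt y'.2.isLt h1 h2 h3 h4 h5 h6 h7 h8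

/-! ### The conflict relation -/

/-- the `s`-th literal of a clause, the first one if there is none -/
def lit (U : UCNF) (c : U.CL) (s : Fin 4) : Option (ULit U.VA) :=
  match (U.lits c)[s.val]? with
  | some l => some l
  | none => (U.lits c)[0]?

/-- conflict of two occurrences at the coordinates `x`, `y` -/
def Conf (U : UCNF) (w : List Bool) (N B : ℕ) (c : U.CL) (s : Fin 4) (x : Fin N × Fin N)
    (c' : U.CL) (s' : Fin 4) (y : Fin N × Fin N) : Prop :=
  (c = c' ∧ x = y ∧ s ≠ s') ∨
  (U.act c (upat w N B x) = true ∧ U.act c' (upat w N B y) = true ∧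
    ∃ l l' : ULit U.VA, lit U c s = some l ∧ lit U c' s' = some l' ∧ l.sgn ≠ l'.sgn ∧
      l.var = l'.var ∧ resolve l.ot x.1 = resolve l'.ot y.1 ∧ resolve l.oj x.2 = resolve l'.oj y.2)

theorem conf_local {U : UCNF} {c c' : U.CL} {s s' : Fin 4} {x y : Fin N × Fin N}
    {x' y' : Fin N' × Fin N'} (hP : bpat w N B x y = bpat w' N' B' x' y')
    (h : Conf U w N B c s x c' s' y) : Conf U w' N' B' c s x' c' s' y' := by
  rcases h with ⟨h1, h2, h3⟩ | ⟨h1, h2, l, l', h3, h4, h5, h6, h7, h8⟩
  · exact Or.inl ⟨h1, same_local hP h2, h3⟩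
  · right
    have hp1 : upat w N B x = upat w' N' B' x' := congrArg BPat.p hP
    have hp2 : upat w N B y = upat w' N' B' y' := congrArg BPat.p' hP
    exact ⟨hp1 ▸ h1, hp2 ▸ h2, l, l', h3, h4, h5, h6, resolve_local_t2 hP h7,
      resolve_local_j2 hP h8⟩

theorem conf_symm {U : UCNF} {c c' : U.CL} {s s' : Fin 4} {x y : Fin N × Fin N}
    (h : Conf U w N B c s x c' s' y) : Conf U w N B c' s' y c s x := by
  rcases h with ⟨h1, h2, h3⟩ | ⟨h1, h2, l, l', h3, h4, h5, h6, h7, h8⟩
  · exact Or.inl ⟨h1.symm, h2.symm, h3.symm⟩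
  · exact Or.inr ⟨h2, h1, l', l, h4, h3, h5.symm, h6.symm, h7.symm, h8.symm⟩

theorem conf_irr {U : UCNF} {c : U.CL} {s : Fin 4} {x : Fin N × Fin N} :
    ¬ Conf U w N B c s x c s x := by
  rintro (⟨-, -, h⟩ | ⟨-, -, l, l', h1, h2, h3, -⟩)
  · exact h rfl
  · rw [h1] at h2
    exact h3 (by rw [Option.some.inj h2])

/-- conflict-free choices are satisfying assignments -/
theorem sat_iff (U : UCNF) (hg : GoodLits (U.ilits w N B)) :
    U.Sat w N B ↔ ∃ σ : U.CL × Fin N × Fin N → Fin 4, ∀ c c',
      ¬ Conf U w N B c.1 (σ c) c.2 c'.1 (σ c') c'.2 := by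
  classical
  constructor
  · rintro ⟨α, hα⟩
    have h1 : ∀ c : U.CL × Fin N × Fin N, ∃ s : Fin 4, U.act c.1 (upat w N B c.2) = true →
        ∀ l, lit U c.1 s = some l → α (l.var, resolve l.ot c.2.1, resolve l.oj c.2.2) = l.sgn := by
      intro c
      by_cases hc : U.act c.1 (upat w N B c.2) = true
      · obtain ⟨v, hv, hv'⟩ := hα ⟨c, hc⟩
        have hlen := (hg ⟨c, hc⟩).2.2
        unfold UCNF.ilits at hv hlen
        rw [List.length_map] at hlen
        obtain ⟨l, hl, rfl⟩ := List.mem_map.mp hv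
        obtain ⟨n, hn, hn'⟩ := List.mem_iff_getElem.mp hl
        change (U.lits c.1).length ≤ 4 at hlen
        refine ⟨⟨n, lt_of_lt_of_le hn hlen⟩, fun _ l' hl' => ?_⟩
        unfold lit at hl'
        simp only [List.getElem?_eq_getElem hn, hn'] at hl'
        have e : l = l' := Option.some.inj hl'
        rw [← e]
        exact hv'
      · exact ⟨0, fun h => absurd h hc⟩
    choose σ hσ using h1
    refine ⟨σ, ?_⟩
    rintro c c' (⟨h1, h2, h3⟩ | ⟨h1, h2, l, l', h3, h4, h5, h6, h7, h8⟩)
    · exact h3 (by rw [Prod.ext h1 h2])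
    · have e1 := hσ c h1 l h3
      have e2 := hσ c' h2 l' h4
      rw [h6, h7, h8, e2] at e1
      exact h5 e1.symm
  · rintro ⟨σ, hσ⟩
    refine ⟨fun v => decide (∃ c : U.CL × Fin N × Fin N, U.act c.1 (upat w N B c.2) = true ∧
      ∃ l, lit U c.1 (σ c) = some l ∧ l.sgn = true ∧
        (l.var, resolve l.ot c.2.1, resolve l.oj c.2.2) = v), ?_⟩
    rintro ⟨c, hc⟩
    have hlen := (hg ⟨c, hc⟩).2.1
    unfold UCNF.ilits at hlen
    rw [List.length_map] at hlen
    change 1 ≤ (U.lits c.1).length at hlen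
    obtain ⟨l, hl, hmem⟩ : ∃ l, lit U c.1 (σ c) = some l ∧ l ∈ U.lits c.1 := by
      unfold lit
      cases h : (U.lits c.1)[(σ c).val]? with
      | some l => exact ⟨l, rfl, List.mem_of_getElem? h⟩
      | none =>
        simp only
        rw [List.getElem?_eq_getElem (by omega)]
        exact ⟨_, rfl, List.getElem_mem _⟩
    refine ⟨(l.sgn, l.var, resolve l.ot c.2.1, resolve l.oj c.2.2), ?_, ?_⟩
    · unfold UCNF.ilits
      exact List.mem_map.mpr ⟨l, hmem, rfl⟩
    · simp only
      cases hs : l.sgn with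
      | true =>
        rw [decide_eq_true_eq]
        exact ⟨c, hc, l, hl, hs, rfl⟩
      | false =>
        rw [decide_eq_false_iff_not]
        rintro ⟨c', hc', l', hl', hs', he⟩
        simp only [Prod.mk.injEq] at he
        exact hσ c' c (Or.inr ⟨hc', hc, l', l, hl', hl, by rw [hs, hs']; simp, he.1, he.2.1,
          he.2.2⟩)

/-! ### The graph -/

/-- kinds of vertices: two hubs and, for each kind of clause, `4 * 5` vertices -/
abbrev Knd (U : UCNF) : Type := Fin 2 ⊕ ((U.CL × Fin 4) × Fin 5)

/-- adjacency of two vertices of given kinds and coordinates -/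
def AdjK (U : UCNF) (w : List Bool) (N B : ℕ) (a : Knd U) (x : Fin N × Fin N) (b : Knd U)
    (y : Fin N × Fin N) : Prop :=
  ¬ (a = b ∧ x = y) ∧ ((∃ h, a = Sum.inl h) ∨ (∃ h, b = Sum.inl h) ∨
    ∃ a' b', a = Sum.inr a' ∧ b = Sum.inr b' ∧ Conf U w N B a'.1.1 a'.1.2 x b'.1.1 b'.1.2 y)

theorem adjK_local {U : UCNF} {a b : Knd U} {x y : Fin N × Fin N} {x' y' : Fin N' × Fin N'}
    (hP : bpat w N B x y = bpat w' N' B' x' y') (h : AdjK U w N B a x b y) :
    AdjK U w' N' B' a x' b y' := by
  obtain ⟨h1, h2⟩ := h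
  refine ⟨fun h => h1 ⟨h.1, same_local hP.symm h.2⟩, ?_⟩
  rcases h2 with h2 | h2 | ⟨a', b', ha, hb, h2⟩
  · exact Or.inl h2
  · exact Or.inr (Or.inl h2)
  · exact Or.inr (Or.inr ⟨a', b', ha, hb, conf_local hP h2⟩)

theorem adjK_symm {U : UCNF} {a b : Knd U} {x y : Fin N × Fin N} (h : AdjK U w N B a x b y) :
    AdjK U w N B b y a x := by
  obtain ⟨h1, h2⟩ := h
  refine ⟨fun h => h1 ⟨h.1.symm, h.2.symm⟩, ?_⟩
  rcases h2 with h2 | h2 | ⟨a', b', ha, hb, h2⟩
  · exact Or.inr (Or.inl h2)
  · exact Or.inl h2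
  · exact Or.inr (Or.inr ⟨b', a', hb, ha, conf_symm h2⟩)

/-- words with a unary number in front -/
theorem unary_inj {k k' : ℕ} {u u' : List Bool}
    (h : List.replicate k true ++ false :: u = List.replicate k' true ++ false :: u') :
    k = k' ∧ u = u' := by
  induction k generalizing k' with
  | zero =>
    cases k' with
    | zero => simpa using h
    | succ k' => simp [List.replicate_succ] at h
  | succ k ih =>
    cases k' with
    | zero => simp [List.replicate_succ] at h
    | succ k' =>
      rw [List.replicate_succ, List.replicate_succ, List.cons_append, List.cons_append] at h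
      obtain ⟨h1, h2⟩ := ih (List.cons.inj h).2
      exact ⟨by rw [h1], h2⟩

/-- The adjacency matrix of the graph of an instance is given by a local pattern, and the
threshold is met by a parameter between the two numbers iff the instance is satisfiable. -/
theorem bits' (U : UCNF) : ∃ (p q : ℕ) (β : Fin p → Fin p → BPat → Bool),
    ∀ P : (∀ n : ℕ, SimpleGraph (Fin n) → ℕ),
    (∀ (n : ℕ) (G : SimpleGraph (Fin n)), 2 ≤ n → G.Connected →
      P n G ∈ Set.uIcc (GammaB G) (IRB G)) →
    ∀ (w : List Bool) (N B : ℕ), 0 < N → GoodLits (U.ilits w N B) →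
      (List.replicate (q * N * N) true ++ false :: matBits p N B w β ∈ UpperLang P ↔
        U.Sat w N B) := by
  classical
  have := U.finVA
  have := U.finCL
  have : Fintype U.CL := Fintype.ofFinite _
  obtain ⟨p, ⟨κ⟩⟩ := Finite.exists_equiv_fin (Knd U)
  refine ⟨p, 5 * Fintype.card U.CL, fun a b P => decide (∃ (w : List Bool) (N B : ℕ)
    (x y : Fin N × Fin N), bpat w N B x y = P ∧ AdjK U w N B (κ.symm a) x (κ.symm b) y), ?_⟩
  intro P hP w N B hN hg
  set L := allVerts p N with hL
  let e : Fin L.length ≃ Fin N × Fin N × Fin p :=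
    List.Nodup.getEquivOfForallMemList L (nodup_allVerts p N) mem_allVerts
  have he : ∀ i, e i = L.get i := fun i => rfl
  set AA : Fin N × Fin N × Fin p → Fin N × Fin N × Fin p → Prop := fun x y =>
    AdjK U w N B (κ.symm x.2.2) (x.1, x.2.1) (κ.symm y.2.2) (y.1, y.2.1) with hAA
  let G' : SimpleGraph (Fin L.length) :=
    { Adj := fun i j => AA (e i) (e j)
      symm := ⟨fun i j h => adjK_symm h⟩
      loopless := ⟨fun i h => h.1 ⟨rfl, rfl⟩⟩ }
  have hbits : matBits p N B w (fun a b P => decide (∃ (w : List Bool) (N B : ℕ)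
      (x y : Fin N × Fin N), bpat w N B x y = P ∧ AdjK U w N B (κ.symm a) x (κ.symm b) y)) =
      adjBits L.length fun i j => decide (G'.Adj i j) := by
    unfold matBits adjBits
    rw [← hL]
    have h1 : L = (List.finRange L.length).map e := by
      conv_lhs => rw [← List.map_get_finRange L]
      exact List.map_congr_left fun i _ => (he i).symm
    conv_lhs => rw [h1]
    rw [List.flatMap_map]
    congr 1
    funext i
    rw [List.map_map]
    congr 1
    funext j
    simp only [Function.comp]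
    rw [decide_eq_decide]
    constructor
    · rintro ⟨w', N', B', x', y', hP, h2⟩
      exact adjK_local hP h2
    · intro h2
      exact ⟨w, N, B, _, _, rfl, h2⟩
  have hlen : 2 ≤ L.length := by
    have h1 : Fintype.card (Fin L.length) = Fintype.card (Fin N × Fin N × Fin p) :=
      Fintype.card_congr e
    rw [Fintype.card_fin, Fintype.card_prod, Fintype.card_prod, Fintype.card_fin,
      Fintype.card_fin] at h1
    have h2 : 2 ≤ p := by
      have h3 : Fintype.card (Knd U) = p := by
        rw [Fintype.card_congr κ, Fintype.card_fin]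
      rw [← h3, Fintype.card_sum, Fintype.card_fin]
      omega
    rw [h1]
    calc 2 ≤ p := h2
      _ = 1 * (1 * p) := by ring
      _ ≤ N * (N * p) := Nat.mul_le_mul hN (Nat.mul_le_mul_right p hN)
  -- the structure of the graph
  let κ' : Fin L.length → Option (((U.CL × Fin N × Fin N) × Fin 4) × Fin 5) := fun i =>
    match κ.symm (e i).2.2 with
    | Sum.inl _ => none
    | Sum.inr a => some (((a.1.1, (e i).1, (e i).2.1), a.1.2), a.2)
  let R : (U.CL × Fin N × Fin N) × Fin 4 → (U.CL × Fin N × Fin N) × Fin 4 → Prop := fun a b =>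
    Conf U w N B a.1.1 a.2 a.1.2 b.1.1 b.2 b.1.2
  have hκ0 : ∀ i, κ' i = none ↔ ∃ h, κ.symm (e i).2.2 = Sum.inl h := by
    intro i
    simp only [κ']
    cases h : κ.symm (e i).2.2 with
    | inl a => simp
    | inr a => simp
  have hκ1 : ∀ i (a : ((U.CL × Fin N × Fin N) × Fin 4) × Fin 5), κ' i = some a ↔
      e i = (a.1.1.2.1, a.1.1.2.2, κ (Sum.inr ((a.1.1.1, a.1.2), a.2))) := by
    intro i a
    simp only [κ']
    cases h : κ.symm (e i).2.2 with
    | inl b =>
      simp only [reduceCtorEq, false_iff]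
      intro h2
      rw [h2] at h
      simp at h
    | inr b =>
      simp only [Option.some.injEq]
      have h3 : (e i).2.2 = κ (Sum.inr b) := by rw [← h, κ.apply_symm_apply]
      constructor
      · rintro rfl
        exact Prod.ext rfl (Prod.ext rfl h3)
      · intro h2
        have h4 := congrArg Prod.fst h2
        have h5 := congrArg (fun z => z.2.1) h2
        have h6 := congrArg (fun z => z.2.2) h2
        simp only at h4 h5 h6
        rw [h3] at h6
        have h7 := Sum.inr.inj (κ.injective h6)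
        rw [h4, h5, h7]
  have hB : Blow G' κ' R := by
    refine ⟨?_, ?_, ?_, ?_, ?_, ?_, ?_, ?_⟩
    · refine ⟨e.symm (⟨0, hN⟩, ⟨0, hN⟩, κ (Sum.inl 0)), ?_⟩
      rw [hκ0]
      exact ⟨0, by simp⟩
    · intro a
      refine ⟨e.symm (a.1.1.2.1, a.1.1.2.2, κ (Sum.inr ((a.1.1.1, a.1.2), a.2))), ?_⟩
      rw [hκ1]
      simp
    · intro x y a hx hy
      rw [hκ1] at hx hy
      exact e.injective (hx.trans hy.symm)
    · intro a b h
      exact conf_symm h
    · intro a h
      exact conf_irr h
    · intro c s s' hs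
      exact Or.inl ⟨rfl, rfl, hs⟩
    · intro x y hx hxy
      rw [hκ0] at hx
      refine ⟨?_, Or.inl hx⟩
      rintro ⟨h1, h2⟩
      apply hxy
      apply e.injective
      have h3 := κ.symm.injective h1
      exact Prod.ext (Prod.mk.inj h2).1 (Prod.ext (Prod.mk.inj h2).2 h3)
    · intro x y a b hx hy
      rw [hκ1] at hx hy
      change AA (e x) (e y) ↔ _
      rw [hx, hy]
      simp only [hAA, κ.symm_apply_apply]
      constructor
      · rintro ⟨-, ⟨h, h2⟩ | ⟨h, h2⟩ | ⟨a', b', ha, hb, h2⟩⟩
        · exact absurd h2 (by simp)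
        · exact absurd h2 (by simp)
        · rw [← Sum.inr.inj ha, ← Sum.inr.inj hb] at h2
          exact h2
      · intro h2
        refine ⟨?_, Or.inr (Or.inr ⟨_, _, rfl, rfl, h2⟩)⟩
        rintro ⟨h3, h4⟩
        have h5 := Sum.inr.inj h3
        have h6 : a.1 = b.1 := by
          have e1 := congrArg (fun z => z.1.1) h5
          have e2 := congrArg (fun z => z.1.2) h5
          simp only at e1 e2
          exact Prod.ext (Prod.ext e1 h4) e2
        rw [h6] at h2
        exact conf_irr h2
  have hcard : 5 * Fintype.card (U.CL × Fin N × Fin N) = 5 * Fintype.card U.CL * N * N := by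
    rw [Fintype.card_prod, Fintype.card_prod, Fintype.card_fin]
    ring
  have hiff := hB.iff
  rw [hcard] at hiff
  have key : (List.replicate (5 * Fintype.card U.CL * N * N) true ++ false ::
      adjBits L.length (fun i j => decide (G'.Adj i j)) ∈ UpperLang P ↔
        5 * Fintype.card U.CL * N * N ≤ P _ G') := by
    constructor
    · rintro ⟨n, k, G₁, A₁, -, -, h3, h4, h5⟩
      obtain ⟨hk, h6⟩ := unary_inj h4
      have hn : n = L.length := by
        have := congrArg List.length h6
        rw [length_adjBits, length_adjBits] at this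
        exact (Nat.mul_self_inj.1 this).symm
      subst hn
      have h7 := adjBits_inj h6
      have h8 : G₁ = G' := by
        ext i j
        rw [← h3, ← h7, decide_eq_true_eq]
      rw [h8, ← hk] at h5
      exact h5
    · intro h
      exact ⟨L.length, _, G', _, hlen, hB.connected, fun i j => by simp, rfl, h⟩
  rw [hbits, key, sat_iff U hg]
  have hP' := hP _ G' hlen hB.connected
  rw [Set.mem_uIcc] at hP'
  constructor
  · intro h
    rcases hP' with ⟨-, h2⟩ | ⟨-, h2⟩
    · exact hiff.2.mpr (h.trans h2)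
    · exact hiff.1.mpr (h.trans h2)
  · intro h
    rcases hP' with ⟨h1, -⟩ | ⟨h1, -⟩
    · exact (hiff.1.mp h).trans h1
    · exact (hiff.2.mp h).trans h1

end Pool.Agent.helper18.BC
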