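import Pool.Agent.helper64.LP.Defs

/-!
# Upper broadcast numbers (MP_7a9dcc_lc): definitions used in the final statement

Languages, NP, polynomial time and NP-hardness are the definitions of
`Pool.Agent.helper64.LP.Defs` (`InNP`, `PolyTime`, `PolyReducible`, `NPHard`, `adjBits`).
-/

set_option autoImplicit false

namespace Pool.Agent.helper18.BC

open Pool.Agent.helper64.LP

variable {V : Type} [Fintype V] [DecidableEq V]

/-- The eccentricity of `v`. -/
noncomputable def ecc (G : SimpleGraph V) (v : V) : ℕ := Finset.univ.sup fun u => G.dist u v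

/-- `f` is a broadcast: `f v` is at most the eccentricity of `v`. -/
def IsBroadcast (G : SimpleGraph V) (f : V → ℕ) : Prop := ∀ v, f v ≤ ecc G v

/-- The cost of a broadcast. -/
def cost (f : V → ℕ) : ℕ := ∑ v, f v

/-- `u` hears `f` from `v`. -/
def Hears (G : SimpleGraph V) (f : V → ℕ) (u v : V) : Prop := 0 < f v ∧ G.dist u v ≤ f v

/-- Every vertex hears `f` from some vertex. -/
def Dominating (G : SimpleGraph V) (f : V → ℕ) : Prop := ∀ u, ∃ v, Hears G f u v

/-- `f` is a minimal dominating broadcast: a dominating broadcast such that no broadcast `g < f`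
is dominating. -/
def MinDominating (G : SimpleGraph V) (f : V → ℕ) : Prop :=
  IsBroadcast G f ∧ Dominating G f ∧
    ∀ g : V → ℕ, IsBroadcast G g → (∀ v, g v ≤ f v) → g ≠ f → ¬ Dominating G g

/-- `f` with the value at `v` lowered by one. -/
def lower (f : V → ℕ) (v : V) : V → ℕ := Function.update f v (f v - 1)

/-- The private boundary of `v`. -/
def PB (G : SimpleGraph V) (f : V → ℕ) (v : V) : Set V :=
  {u | G.dist u v ≤ f v ∧ ∀ x, ¬ Hears G (lower f v) u x}

/-- `f` is an irredundant broadcast. -/
def Irredundant (G : SimpleGraph V) (f : V → ℕ) : Prop :=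
  IsBroadcast G f ∧ ∀ v, 0 < f v → (PB G f v).Nonempty

/-- The upper broadcast domination number: the maximum cost of a minimal dominating broadcast. -/
noncomputable def GammaB (G : SimpleGraph V) : ℕ := sSup {c | ∃ f, MinDominating G f ∧ cost f = c}

/-- The upper broadcast irredundance number: the maximum cost of an irredundant broadcast. -/
noncomputable def IRB (G : SimpleGraph V) : ℕ := sSup {c | ∃ f, Irredundant G f ∧ cost f = c}

/-- The instances: a number `k` (in unary) and the adjacency matrix of a connected graph `G` on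
`{0, …, n-1}`, `n ≥ 2`, such that `k ≤ p G`. -/
def UpperLang (p : ∀ (n : ℕ), SimpleGraph (Fin n) → ℕ) : Set (List Bool) :=
  {w | ∃ (n k : ℕ) (G : SimpleGraph (Fin n)) (A : Fin n → Fin n → Bool),
    2 ≤ n ∧ G.Connected ∧ (∀ i j, A i j = true ↔ G.Adj i j) ∧
    w = List.replicate k true ++ false :: adjBits n A ∧ k ≤ p n G}

end Pool.Agent.helper18.BC
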