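import Pool.Agent.helper18.BC.Defs

/-!
# Upper broadcast numbers (MP_7a9dcc_lc): the graph theorem
-/

set_option autoImplicit false
set_option linter.unusedSectionVars false

namespace Pool.Agent.helper18.BC

open Finset

variable {V : Type} [Fintype V] [DecidableEq V]

theorem dist_le_ecc (G : SimpleGraph V) (u v : V) : G.dist u v ≤ ecc G v :=
  Finset.le_sup (f := fun u => G.dist u v) (Finset.mem_univ u)

theorem cost_le {G : SimpleGraph V} {f : V → ℕ} (hf : IsBroadcast G f) : cost f ≤ ∑ v, ecc G v :=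
  Finset.sum_le_sum fun v _ => hf v

theorem le_GammaB {G : SimpleGraph V} {f : V → ℕ} (hf : MinDominating G f) : cost f ≤ GammaB G := by
  apply le_csSup
  · refine ⟨∑ v, ecc G v, ?_⟩
    rintro c ⟨g, hg, rfl⟩
    exact cost_le hg.1
  · exact ⟨f, hf, rfl⟩

theorem le_IRB {G : SimpleGraph V} {f : V → ℕ} (hf : Irredundant G f) : cost f ≤ IRB G := by
  apply le_csSup
  · refine ⟨∑ v, ecc G v, ?_⟩
    rintro c ⟨g, hg, rfl⟩
    exact cost_le hg.1
  · exact ⟨f, hf, rfl⟩

/-- a minimal dominating broadcast is irredundant -/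
theorem MinDominating.irredundant {G : SimpleGraph V} {f : V → ℕ} (hf : MinDominating G f) :
    Irredundant G f := by
  obtain ⟨h1, h2, h3⟩ := hf
  refine ⟨h1, fun v hv => ?_⟩
  have h4 : ∀ x, lower f v x ≤ f x := by
    intro x
    by_cases hx : x = v
    · subst hx
      simp [lower]
    · simp [lower, hx]
  have h5 : lower f v ≠ f := by
    intro h
    have := congrFun h v
    simp [lower] at this
    omega
  have h6 := h3 (lower f v) (fun x => (h4 x).trans (h1 x)) h4 h5
  unfold Dominating at h6
  push Not at h6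
  obtain ⟨u, hu⟩ := h6
  refine ⟨u, ?_, hu⟩
  obtain ⟨x, hx⟩ := h2 u
  by_cases hxv : x = v
  · subst hxv
    exact hx.2
  · exfalso
    apply hu x
    have h7 : lower f v x = f x := by simp [lower, hxv]
    unfold Hears
    rw [h7]
    exact hx

/-! ### The blow-up graph -/

section blowup

variable {C : Type} [Fintype C] [DecidableEq C]

/-- the structure of the graph of an instance: hubs adjacent to all vertices, the other vertices
are five twins for each pair `(c, s)`; different pairs of the same `c` are in conflict -/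
structure Blow (G : SimpleGraph V) (κ : V → Option ((C × Fin 4) × Fin 5))
    (R : C × Fin 4 → C × Fin 4 → Prop) : Prop where
  /-- there is a hub -/
  hub : ∃ h, κ h = none
  /-- the other vertices -/
  ex : ∀ a, ∃ x, κ x = some a
  inj : ∀ x y a, κ x = some a → κ y = some a → x = y
  symm : ∀ a b, R a b → R b a
  irr : ∀ a, ¬ R a a
  clause : ∀ c s s', s ≠ s' → R (c, s) (c, s')
  adj_hub : ∀ x y, κ x = none → x ≠ y → G.Adj x y
  adj : ∀ x y a b, κ x = some a → κ y = some b → (G.Adj x y ↔ R a.1 b.1)

variable {G : SimpleGraph V} {κ : V → Option ((C × Fin 4) × Fin 5)}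
  {R : C × Fin 4 → C × Fin 4 → Prop}

theorem Blow.dist_le_two (h : Blow G κ R) (x y : V) : G.dist x y ≤ 2 := by
  obtain ⟨u, hu⟩ := h.hub
  by_cases hx : x = u
  · subst hx
    by_cases hy : x = y
    · subst hy
      simp
    · rw [SimpleGraph.dist_eq_one_iff_adj.mpr (h.adj_hub x y hu hy)]
      norm_num
  · by_cases hy : y = u
    · subst hy
      rw [SimpleGraph.dist_comm, SimpleGraph.dist_eq_one_iff_adj.mpr
        (h.adj_hub y x hu (fun e => hx e.symm))]
      norm_num
    · have h1 : G.Adj x u := (h.adj_hub u x hu (fun e => hx e.symm)).symm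
      have h2 : G.Adj u y := h.adj_hub u y hu (fun e => hy e.symm)
      exact SimpleGraph.dist_le (.cons h1 (.cons h2 .nil))

theorem Blow.connected (h : Blow G κ R) : G.Connected := by
  obtain ⟨u, hu⟩ := h.hub
  have : Nonempty V := ⟨u⟩
  refine SimpleGraph.Connected.mk ?_
  have h1 : ∀ x, G.Reachable u x := by
    intro x
    by_cases hx : u = x
    · subst hx
      exact SimpleGraph.Reachable.refl _
    · exact (h.adj_hub u x hu hx).reachable
  intro x y
  exact (h1 x).symm.trans (h1 y)

theorem Blow.ecc_le (h : Blow G κ R) (x : V) : ecc G x ≤ 2 :=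
  Finset.sup_le fun u _ => h.dist_le_two u x

/-- distance at most one -/
theorem Blow.dist_le_one (h : Blow G κ R) {x y : V} (hd : G.dist x y ≤ 1) : x = y ∨ G.Adj x y := by
  rcases Nat.eq_zero_or_pos (G.dist x y) with h0 | h0
  · left
    exact h.connected.dist_eq_zero_iff.mp h0
  · right
    exact SimpleGraph.dist_eq_one_iff_adj.mp (by omega)

/-- a minimal dominating broadcast of large cost from a conflict-free choice -/
theorem Blow.exists_minDominating (h : Blow G κ R) [Nonempty C] (σ : C → Fin 4)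
    (hσ : ∀ c c', ¬ R (c, σ c) (c', σ c')) :
    ∃ f, MinDominating G f ∧ 5 * Fintype.card C ≤ cost f := by
  classical
  -- a maximal independent set of pairs
  obtain ⟨Y, hY1, hY2⟩ : ∃ Y : Finset (C × Fin 4),
      (univ.image fun c => (c, σ c)) ≤ Y ∧
      Maximal (fun Y : Finset (C × Fin 4) => ∀ a ∈ Y, ∀ b ∈ Y, ¬ R a b) Y := by
    apply Finite.exists_le_maximal
    intro a ha b hb
    simp only [mem_image, mem_univ, true_and] at ha hb
    obtain ⟨c, rfl⟩ := ha
    obtain ⟨c', rfl⟩ := hb
    exact hσ c c'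
  have hdom : ∀ a, a ∉ Y → ∃ b ∈ Y, R a b := by
    intro a ha
    by_contra hcon
    push Not at hcon
    have h1 : ∀ x ∈ insert a Y, ∀ y ∈ insert a Y, ¬ R x y := by
      intro x hx y hy
      rw [mem_insert] at hx hy
      rcases hx with rfl | hx <;> rcases hy with rfl | hy
      · exact h.irr _
      · exact hcon y hy
      · exact fun e => hcon x hx (h.symm _ _ e)
      · exact hY2.prop x hx y hy
    have h2 := hY2.le_of_ge h1 (Finset.subset_insert a Y)
    exact ha (h2 (mem_insert_self a Y))
  have hpick := fun a => h.ex a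
  choose ν hν using hpick
  have hνinj : Function.Injective ν := by
    intro a b hab
    have h1 := hν a
    rw [hab, hν b] at h1
    exact (Option.some.inj h1).symm
  set X : Finset V := (Y ×ˢ (univ : Finset (Fin 5))).image ν with hX
  have hmem : ∀ x, x ∈ X ↔ ∃ a, a.1 ∈ Y ∧ ν a = x := by
    intro x
    rw [hX, mem_image]
    constructor
    · rintro ⟨a, ha, rfl⟩
      rw [mem_product] at ha
      exact ⟨a, ha.1, rfl⟩
    · rintro ⟨a, ha, rfl⟩
      exact ⟨a, mem_product.mpr ⟨ha, mem_univ _⟩, rfl⟩
  have hind : ∀ x ∈ X, ∀ y ∈ X, ¬ G.Adj x y := by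
    intro x hx y hy hxy
    rw [hmem] at hx hy
    obtain ⟨a, ha, rfl⟩ := hx
    obtain ⟨b, hb, rfl⟩ := hy
    rw [h.adj _ _ a b (hν a) (hν b)] at hxy
    exact hY2.prop _ ha _ hb hxy
  obtain ⟨c₀⟩ := (inferInstance : Nonempty C)
  have hc₀ : (c₀, σ c₀) ∈ Y := hY1 (mem_image.mpr ⟨c₀, mem_univ _, rfl⟩)
  have hcov : ∀ x, ∃ y ∈ X, x = y ∨ G.Adj x y := by
    intro x
    rcases hx : κ x with _ | a
    · refine ⟨ν ((c₀, σ c₀), 0), (hmem _).mpr ⟨_, hc₀, rfl⟩, Or.inr (h.adj_hub _ _ hx ?_)⟩
      intro e
      rw [e, hν] at hx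
      exact absurd hx (by simp)
    · have hxa : ν a = x := h.inj _ _ a (hν a) hx
      by_cases ha : a.1 ∈ Y
      · exact ⟨x, (hmem _).mpr ⟨a, ha, hxa⟩, Or.inl rfl⟩
      · obtain ⟨b, hb, hab⟩ := hdom a.1 ha
        refine ⟨ν (b, 0), (hmem _).mpr ⟨_, hb, rfl⟩, Or.inr ?_⟩
        rw [h.adj x _ a (b, 0) hx (hν _)]
        exact hab
  have hecc : ∀ x ∈ X, 1 ≤ ecc G x := by
    intro x hx
    obtain ⟨u, hu⟩ := h.hub
    have hux : u ≠ x := by
      rintro rfl
      rw [hmem] at hx
      obtain ⟨a, _, ha⟩ := hx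
      rw [← ha, hν] at hu
      exact absurd hu (by simp)
    have := dist_le_ecc G u x
    rwa [SimpleGraph.dist_eq_one_iff_adj.mpr (h.adj_hub u x hu hux)] at this
  refine ⟨fun x => if x ∈ X then 1 else 0, ⟨?_, ?_, ?_⟩, ?_⟩
  · intro x
    by_cases hx : x ∈ X
    · simpa [hx] using hecc x hx
    · simp [hx]
  · intro x
    obtain ⟨y, hy, hxy⟩ := hcov x
    refine ⟨y, by simp [hy], ?_⟩
    simp only [hy, if_true]
    rcases hxy with rfl | hxy
    · simp
    · rw [SimpleGraph.dist_eq_one_iff_adj.mpr hxy]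
  · intro g _ hg2 hg3 hg4
    obtain ⟨v, hv⟩ : ∃ v, g v ≠ if v ∈ X then 1 else 0 := by
      by_contra hcon
      push Not at hcon
      exact hg3 (funext hcon)
    have hv1 := hg2 v
    have hvX : v ∈ X := by
      by_contra hvX
      simp only [hvX, if_false] at hv1 hv
      omega
    simp only [hvX, if_true] at hv1 hv
    have hgv : g v = 0 := by omega
    obtain ⟨x, hx1, hx2⟩ := hg4 v
    have h1 := hg2 x
    have hxX : x ∈ X := by
      by_contra hxX
      simp only [hxX, if_false] at h1
      omega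
    simp only [hxX, if_true] at h1
    rcases h.dist_le_one (hx2.trans h1) with e | e
    · rw [← e] at hx1
      omega
    · exact hind v hvX x hxX e
  · have h1 : cost (fun x => if x ∈ X then 1 else 0) = X.card := by
      simp [cost]
    rw [h1, hX, card_image_of_injective _ hνinj, card_product]
    have h2 : Fintype.card C ≤ Y.card := by
      have h3 : (univ.image fun c => (c, σ c)).card = Fintype.card C := by
        rw [card_image_of_injective]
        · rfl
        · intro a b hab
          exact (Prod.mk.inj hab).1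
      rw [← h3]
      exact card_le_card hY1
    simp
    omega

/-- if there is no conflict-free choice, irredundant broadcasts are cheap -/
theorem Blow.cost_lt (h : Blow G κ R) (hno : ¬ ∃ σ : C → Fin 4, ∀ c c', ¬ R (c, σ c) (c', σ c'))
    {f : V → ℕ} (hf : Irredundant G f) : cost f < 5 * Fintype.card C := by
  classical
  have hC : 0 < Fintype.card C := by
    rw [Fintype.card_pos_iff]
    by_contra hcon
    rw [not_nonempty_iff] at hcon
    exact hno ⟨fun c => (hcon.false c).elim, fun c => (hcon.false c).elim⟩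
  obtain ⟨hb, hi⟩ := hf
  -- a broadcasting vertex which is heard by everybody is the only one
  have honly : ∀ v, 0 < f v → (∀ u, G.dist u v ≤ f v) → ∀ x, x ≠ v → f x = 0 := by
    intro v hv hall x hxv
    by_contra hx
    obtain ⟨u, -, hu⟩ := hi x (Nat.pos_of_ne_zero hx)
    apply hu v
    have h1 : lower f x v = f v := by simp [lower, Ne.symm hxv]
    unfold Hears
    rw [h1]
    exact ⟨hv, hall u⟩
  have hsingle : ∀ v, (∀ x, x ≠ v → f x = 0) → cost f ≤ 2 := by
    intro v hv
    have h1 : cost f = f v := by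
      unfold cost
      exact Finset.sum_eq_single v (fun x _ hx => hv x hx) (fun e => absurd (mem_univ v) e)
    rw [h1]
    exact (hb v).trans (h.ecc_le v)
  by_cases hbig : ∃ v, 2 ≤ f v
  · obtain ⟨v, hv⟩ := hbig
    have := hsingle v (honly v (by omega) fun u => (h.dist_le_two u v).trans hv)
    omega
  push Not at hbig
  by_cases hhub : ∃ v, κ v = none ∧ 0 < f v
  · obtain ⟨v, hv, hfv⟩ := hhub
    have := hsingle v (honly v hfv fun u => by
      by_cases huv : v = u
      · subst huv
        simp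
      · rw [SimpleGraph.dist_comm, SimpleGraph.dist_eq_one_iff_adj.mpr (h.adj_hub v u hv huv)]
        exact hfv)
    omega
  push Not at hhub
  choose ν hν using fun a => h.ex a
  have hνinj : Function.Injective ν := by
    intro a b hab
    have h1 := hν a
    rw [hab, hν b] at h1
    exact (Option.some.inj h1).symm
  -- the cost is a sum over the pairs
  have hcost : cost f = ∑ c : C, ∑ s : Fin 4, ∑ i : Fin 5, f (ν ((c, s), i)) := by
    have h1 : cost f = ∑ a : (C × Fin 4) × Fin 5, f (ν a) := by
      unfold cost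
      symm
      have h2 : ∑ a : (C × Fin 4) × Fin 5, f (ν a) = ∑ x ∈ univ.image ν, f x := by
        rw [Finset.sum_image (fun a _ b _ hab => hνinj hab)]
      rw [h2]
      apply Finset.sum_subset (Finset.subset_univ _)
      intro x _ hx
      rcases hκ : κ x with _ | a
      · have := hhub x hκ
        omega
      · exact absurd (mem_image.mpr ⟨a, mem_univ _, h.inj _ _ a (hν a) hκ⟩) hx
    rw [h1, Fintype.sum_prod_type, Fintype.sum_prod_type]
  -- twins
  have htwin : ∀ a i j, i ≠ j → 0 < f (ν (a, i)) → 0 < f (ν (a, j)) →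
      ∀ b k, 0 < f (ν (b, k)) → ¬ R a b := by
    intro a i j hij hfi hfj b k hfk hR
    obtain ⟨u, hu1, hu2⟩ := hi _ hfi
    have hle : f (ν (a, i)) ≤ 1 := by
      have := hbig (ν (a, i))
      omega
    have hne : ν (a, i) ≠ ν (a, j) := by
      intro e
      have := hνinj e
      simp only [Prod.mk.injEq, true_and] at this
      exact hij this
    have hheard : ∀ y, y ≠ ν (a, i) → 0 < f y → ¬ (u = y ∨ G.Adj u y) := by
      intro y hy hfy hadj
      apply hu2 y
      have h1 : lower f (ν (a, i)) y = f y := by simp [lower, hy]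
      unfold Hears
      rw [h1]
      refine ⟨hfy, ?_⟩
      rcases hadj with rfl | hadj
      · simp
      · rw [SimpleGraph.dist_eq_one_iff_adj.mpr hadj]
        exact hfy
    rcases h.dist_le_one (hu1.trans hle) with e | e
    · -- `u` is the vertex itself, it is isolated
      subst e
      have hab : ν (b, k) ≠ ν (a, i) := by
        intro e
        have := hνinj e
        simp only [Prod.mk.injEq] at this
        rw [this.1] at hR
        exact h.irr _ hR
      apply hheard _ hab hfk
      right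
      rw [h.adj _ _ (a, i) (b, k) (hν _) (hν _)]
      exact hR
    · -- `u` is a neighbour, it also hears the twin
      apply hheard _ hne.symm hfj
      right
      rcases hκ : κ u with _ | d
      · refine h.adj_hub u _ hκ ?_
        intro e'
        rw [e', hν] at hκ
        exact absurd hκ (by simp)
      · rw [h.adj _ _ d (a, i) hκ (hν _)] at e
        rw [h.adj _ _ d (a, j) hκ (hν _)]
        exact e
  -- fibres
  have hfle : ∀ x, f x ≤ 1 := fun x => by
    have := hbig x
    omega
  by_cases hall : ∀ c : C, ∃ s : Fin 4, ∃ i j : Fin 5, i ≠ j ∧ 0 < f (ν ((c, s), i)) ∧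
      0 < f (ν ((c, s), j))
  · exfalso
    choose σ i j hij h1 h2 using hall
    exact hno ⟨σ, fun c c' => htwin (c, σ c) (i c) (j c) (hij c) (h1 c) (h2 c) (c', σ c') (i c')
      (h1 c')⟩
  · push Not at hall
    obtain ⟨c₁, hc₁⟩ := hall
    -- fibres with at most one broadcasting twin
    have hfib : ∀ c s, (∀ i j : Fin 5, i ≠ j → 0 < f (ν ((c, s), i)) → f (ν ((c, s), j)) ≤ 0) →
        ∑ i : Fin 5, f (ν ((c, s), i)) ≤ 1 := by
      intro c s hcs
      by_cases hz : ∃ i, 0 < f (ν ((c, s), i))
      · obtain ⟨i, hi'⟩ := hz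
        rw [Finset.sum_eq_single i (fun j _ hj => by
          have := hcs i j (Ne.symm hj) hi'
          omega) (fun e => absurd (mem_univ i) e)]
        exact hfle _
      · push Not at hz
        rw [Finset.sum_eq_zero (fun i _ => by have := hz i; omega)]
        norm_num
    have hfib5 : ∀ c s, ∑ i : Fin 5, f (ν ((c, s), i)) ≤ 5 := by
      intro c s
      calc ∑ i : Fin 5, f (ν ((c, s), i)) ≤ ∑ _i : Fin 5, 1 := Finset.sum_le_sum fun i _ => hfle _
        _ = 5 := by simp
    have hcl : ∀ c, ∑ s : Fin 4, ∑ i : Fin 5, f (ν ((c, s), i)) ≤ 5 := by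
      intro c
      by_cases hs : ∃ s, ∃ i j : Fin 5, i ≠ j ∧ 0 < f (ν ((c, s), i)) ∧ 0 < f (ν ((c, s), j))
      · obtain ⟨s, i, j, hij, h1, h2⟩ := hs
        rw [Finset.sum_eq_single s (fun s' _ hs' => ?_) (fun e => absurd (mem_univ s) e)]
        · exact hfib5 c s
        · apply Finset.sum_eq_zero
          intro k _
          by_contra hk
          exact htwin (c, s) i j hij h1 h2 (c, s') k (Nat.pos_of_ne_zero hk)
            (h.clause c s s' (Ne.symm hs'))
      · push Not at hs
        calc ∑ s : Fin 4, ∑ i : Fin 5, f (ν ((c, s), i)) ≤ ∑ _s : Fin 4, 1 :=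
              Finset.sum_le_sum fun s _ => hfib c s (hs s)
          _ ≤ 5 := by simp
    have hc4 : ∑ s : Fin 4, ∑ i : Fin 5, f (ν ((c₁, s), i)) ≤ 4 := by
      calc ∑ s : Fin 4, ∑ i : Fin 5, f (ν ((c₁, s), i)) ≤ ∑ _s : Fin 4, 1 :=
            Finset.sum_le_sum fun s _ => hfib c₁ s (hc₁ s)
        _ = 4 := by simp
    rw [hcost]
    calc ∑ c : C, ∑ s : Fin 4, ∑ i : Fin 5, f (ν ((c, s), i)) < ∑ _c : C, 5 :=
          Finset.sum_lt_sum (fun c _ => hcl c) ⟨c₁, mem_univ _, by omega⟩
      _ = 5 * Fintype.card C := by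
        simp [mul_comm]

/-- the two numbers of the graph of an instance -/
theorem Blow.iff (h : Blow G κ R) :
    ((∃ σ : C → Fin 4, ∀ c c', ¬ R (c, σ c) (c', σ c')) ↔ 5 * Fintype.card C ≤ GammaB G) ∧
    ((∃ σ : C → Fin 4, ∀ c c', ¬ R (c, σ c) (c', σ c')) ↔ 5 * Fintype.card C ≤ IRB G) := by
  have h1 : (∃ σ : C → Fin 4, ∀ c c', ¬ R (c, σ c) (c', σ c')) →
      5 * Fintype.card C ≤ GammaB G ∧ 5 * Fintype.card C ≤ IRB G := by
    rintro ⟨σ, hσ⟩
    rcases isEmpty_or_nonempty C with hC | hC
    · simp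
    · obtain ⟨f, hf, hc⟩ := h.exists_minDominating σ hσ
      exact ⟨hc.trans (le_GammaB hf), hc.trans (le_IRB hf.irredundant)⟩
  have h2 : 5 * Fintype.card C ≤ GammaB G ∨ 5 * Fintype.card C ≤ IRB G →
      (∃ σ : C → Fin 4, ∀ c c', ¬ R (c, σ c) (c', σ c')) := by
    intro hle
    by_contra hno
    have hC : 0 < Fintype.card C := by
      rw [Fintype.card_pos_iff]
      by_contra hcon
      rw [not_nonempty_iff] at hcon
      exact hno ⟨fun c => (hcon.false c).elim, fun c => (hcon.false c).elim⟩
    have hlt : ∀ S : Set ℕ, (∀ c ∈ S, c < 5 * Fintype.card C) → sSup S < 5 * Fintype.card C := by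
      intro S hS
      rcases S.eq_empty_or_nonempty with rfl | hne
      · rw [csSup_empty]
        simp
        omega
      · exact hS _ (Nat.sSup_mem hne ⟨_, fun c hc => (hS c hc).le⟩)
    rcases hle with hle | hle
    · refine absurd hle (not_le.mpr (hlt _ ?_))
      rintro c ⟨f, hf, rfl⟩
      exact h.cost_lt hno hf.irredundant
    · refine absurd hle (not_le.mpr (hlt _ ?_))
      rintro c ⟨f, hf, rfl⟩
      exact h.cost_lt hno hf
  exact ⟨⟨fun e => (h1 e).1, fun e => h2 (Or.inl e)⟩, ⟨fun e => (h1 e).2, fun e => h2 (Or.inr e)⟩⟩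

end blowup

end Pool.Agent.helper18.BC
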